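import Pool.Agent.Y957.MC.Maps
import Pool.Agent.Y957.MC.Ret

set_option autoImplicit false

/-! Powers of invertible maps at the integer parts of generic multiples of real polynomials. -/

namespace Pool.Agent.N201.BT

open MeasureTheory Filter Finset
open Pool.Agent.Y957.MC

universe u

/-- invertible measurable measure preserving maps -/
structure IsInv {X : Type u} [MeasurableSpace X] (μ : Measure X) (T : Equiv.Perm X) : Prop where
  meas : Measurable T
  symm : Measurable T.symm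
  mp : MeasurePreserving T μ μ

variable {X : Type u} [MeasurableSpace X] {μ : Measure X}

/-- the measurable equivalence -/
def IsInv.eqv {T : Equiv.Perm X} (h : IsInv μ T) : X ≃ᵐ X := ⟨T, h.meas, h.symm⟩

lemma IsInv.mp_symm {T : Equiv.Perm X} (h : IsInv μ T) : MeasurePreserving T.symm μ μ :=
  MeasurePreserving.symm h.eqv h.mp

lemma coe_pow_nat (T : Equiv.Perm X) (k : ℕ) : ⇑(T ^ (k : ℤ)) = T^[k] := by
  rw [zpow_natCast]
  exact (Equiv.Perm.iterate_eq_pow T k).symm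

lemma coe_pow_neg (T : Equiv.Perm X) (k : ℕ) : ⇑(T ^ (-(k : ℤ))) = T.symm^[k] := by
  rw [zpow_neg, ← inv_zpow, zpow_natCast]
  exact (Equiv.Perm.iterate_eq_pow T⁻¹ k).symm

lemma IsInv.zpow {T : Equiv.Perm X} (h : IsInv μ T) (k : ℤ) : MeasurePreserving (⇑(T ^ k)) μ μ := by
  obtain ⟨n, rfl | rfl⟩ := k.eq_nat_or_neg
  · rw [coe_pow_nat]
    exact h.mp.iterate n
  · rw [coe_pow_neg]
    exact h.mp_symm.iterate n

lemma inv_symm (T : Equiv.Perm X) :
    MeasurableSpace.invariants (⇑T.symm) = MeasurableSpace.invariants (⇑T) := by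
  refine MeasurableSpace.ext fun s => ?_
  rw [MeasurableSpace.measurableSet_invariants, MeasurableSpace.measurableSet_invariants]
  refine and_congr_right fun _ => ?_
  constructor
  · intro h
    conv_lhs => rw [← h]
    rw [← Set.preimage_comp]
    simp
  · intro h
    conv_lhs => rw [← h]
    rw [← Set.preimage_comp]
    simp

lemma condExp_comp_symm [IsProbabilityMeasure μ] {T : Equiv.Perm X} (h : IsInv μ T) {g : X → ℝ}
    (hg : Integrable g μ) :
    μ[fun x => g (T.symm x) | MeasurableSpace.invariants (⇑T)] =ᵐ[μ]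
      μ[g | MeasurableSpace.invariants (⇑T)] := by
  have hle := MeasurableSpace.invariants_le (⇑T)
  refine (ae_eq_condExp_of_forall_setIntegral_eq hle
    (h.mp_symm.integrable_comp_of_integrable hg) ?_ ?_ ?_).symm
  · intro s _ _
    exact integrable_condExp.integrableOn
  · intro s hs _
    rw [setIntegral_condExp hle hg hs]
    have hs' : ⇑T.symm ⁻¹' s = s := by
      rw [← inv_symm] at hs
      exact (MeasurableSpace.measurableSet_invariants.1 hs).2
    have e := h.mp_symm.setIntegral_preimage_emb h.eqv.symm.measurableEmbedding g s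
    rw [hs'] at e
    exact e.symm
  · exact stronglyMeasurable_condExp.aestronglyMeasurable

lemma ae_nonint (c : ℝ) (hc : c ≠ 0) : ∀ᵐ a : ℝ, ∀ k : ℤ, a * c ≠ k := by
  rw [ae_all_iff]
  intro k
  have : ∀ᵐ a : ℝ, a ≠ k / c := by
    rw [ae_iff]
    simp
  filter_upwards [this] with a ha h
  exact ha (by rw [← h]; field_simp)

lemma floor_neg' {y : ℝ} (hy : 0 ≤ y) (hk : ∀ k : ℤ, y ≠ k) : ⌊-y⌋ = -((⌊y⌋₊ + 1 : ℕ) : ℤ) := by
  rw [Int.floor_neg]
  have h1 : ⌈y⌉ = ⌊y⌋ + 1 := by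
    rw [Int.ceil_eq_iff]
    push_cast
    constructor
    · have := lt_of_le_of_ne (Int.floor_le y) (Ne.symm (hk _))
      linarith
    · exact (Int.lt_floor_add_one y).le
  rw [h1, ← Int.natCast_floor_eq_floor hy]
  push_cast
  ring

theorem map_key [IsProbabilityMeasure μ] {T : Equiv.Perm X} (hT : IsInv μ T) {g : X → ℝ} (hg : Measurable g)
    (hgb : ∃ C, ∀ x, |g x| ≤ C) {P : Polynomial ℝ} (hP : 0 < P.natDegree) (hlc : 0 < P.leadingCoeff) :
    ∀ᵐ x ∂μ, ∀ B : ℕ → ℂ, (∀ n, ‖B n‖ ≤ 1) → ∀ᵐ a : ℝ,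
      Tendsto (fun N : ℕ => (1 / (N : ℂ)) * ∑ n ∈ Icc 1 N, B n *
        (((g ((T ^ ⌊a * P.eval (n : ℝ)⌋) x) - (μ[g | MeasurableSpace.invariants (⇑T)]) x : ℝ)) : ℂ))
        atTop (nhds 0) := by
  obtain ⟨n₀, hn₀⟩ : ∃ n₀ : ℕ, ∀ n : ℕ, n₀ ≤ n → 0 < P.eval (n : ℝ) := by
    have h := (Polynomial.tendsto_atTop_of_leadingCoeff_nonneg P
      (Polynomial.natDegree_pos_iff_degree_pos.1 hP) hlc.le).comp tendsto_natCast_atTop_atTop
    exact eventually_atTop.1 (h.eventually_gt_atTop 0)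
  have h1 := bty_all (fun n : ℕ => P.eval (n : ℝ)) (good_poly hP hlc) X μ T g hT.mp hg hgb
  have h2 := bty_all (fun n : ℕ => P.eval (n : ℝ)) (good_poly hP hlc) X μ T.symm (fun x => g (T.symm x))
    hT.mp_symm (hg.comp hT.symm) (by obtain ⟨C, hC⟩ := hgb; exact ⟨C, fun x => hC _⟩)
  have hint : Integrable g μ := by
    obtain ⟨C, hC⟩ := hgb
    exact Integrable.of_bound hg.aestronglyMeasurable C (ae_of_all _ hC)
  have h3 := condExp_comp_symm hT hint
  rw [inv_symm] at h2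
  have hpos : ∀ᵐ a : ℝ ∂(volume.restrict (Set.Ioi (0 : ℝ))), 0 < a := ae_restrict_mem measurableSet_Ioi
  have hni : ∀ᵐ a : ℝ ∂(volume.restrict (Set.Ioi (0 : ℝ))), ∀ n : ℕ, n₀ ≤ n → ∀ k : ℤ,
      a * P.eval (n : ℝ) ≠ k := by
    refine ae_restrict_of_ae ?_
    rw [ae_all_iff]
    intro n
    by_cases hn : n₀ ≤ n
    · filter_upwards [ae_nonint _ (hn₀ n hn).ne'] with a ha _
      exact ha
    · exact ae_of_all _ fun a h => absurd h hn
  filter_upwards [h1, h2, h3] with x hx1 hx2 hx3 B hB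
  refine ae_real ?_ ?_
  · filter_upwards [hx1 B hB, hpos] with a ha ha0
    refine avg_congr (n₀ := n₀) (fun n hn => ?_) ha
    have hy : 0 ≤ a * P.eval (n : ℝ) := (mul_pos ha0 (hn₀ n hn)).le
    rw [← Int.natCast_floor_eq_floor hy, coe_pow_nat]
  · filter_upwards [hx2 B hB, hpos, hni] with a ha ha0 hani
    refine avg_congr (n₀ := n₀) (fun n hn => ?_) ha
    have hy : 0 ≤ a * P.eval (n : ℝ) := (mul_pos ha0 (hn₀ n hn)).le
    rw [neg_mul, floor_neg' hy (hani n hn), coe_pow_neg, Function.iterate_succ_apply', hx3]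

/-- one invertible map, one polynomial, both directions of time -/
theorem map_poly [IsProbabilityMeasure μ] {T : Equiv.Perm X} (hT : IsInv μ T) {g : X → ℝ} (hg : Measurable g)
    (hgb : ∃ C, ∀ x, |g x| ≤ C) {P : Polynomial ℝ} (hP : 0 < P.natDegree) :
    ∀ᵐ x ∂μ, ∀ B : ℕ → ℂ, (∀ n, ‖B n‖ ≤ 1) → ∀ᵐ a : ℝ,
      Tendsto (fun N : ℕ => (1 / (N : ℂ)) * ∑ n ∈ Icc 1 N, B n *
        (((g ((T ^ ⌊a * P.eval (n : ℝ)⌋) x) - (μ[g | MeasurableSpace.invariants (⇑T)]) x : ℝ)) : ℂ))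
        atTop (nhds 0) := by
  rcases lt_trichotomy P.leadingCoeff 0 with h | h | h
  · have h1 := map_key hT hg hgb (P := -P) (by rwa [Polynomial.natDegree_neg])
      (by rw [Polynomial.leadingCoeff_neg]; linarith)
    filter_upwards [h1] with x hx B hB
    have h2 := (Measure.measurePreserving_neg (volume : Measure ℝ)).quasiMeasurePreserving.ae (hx B hB)
    filter_upwards [h2] with a ha
    simpa only [Polynomial.eval_neg, mul_neg, neg_mul, neg_neg] using ha
  · rw [Polynomial.leadingCoeff_eq_zero] at h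
    rw [h] at hP
    simp at hP
  · exact map_key hT hg hgb hP h

lemma measurable_pow {β : Type*} [MeasurableSpace β] {T : Equiv.Perm X} (hT : IsInv μ T) {f : X → β}
    (hf : Measurable f) (c : ℝ) : Measurable fun q : X × ℝ => f ((T ^ ⌊q.2 * c⌋) q.1) := by
  have h1 : Measurable fun q : X × ℤ => f ((T ^ q.2) q.1) :=
    measurable_from_prod_countable_left fun k => hf.comp (hT.zpow k).measurable
  have h2 : Measurable fun q : X × ℝ => (q.1, ⌊q.2 * c⌋) :=
    measurable_fst.prodMk (Int.measurable_floor.comp (measurable_snd.mul_const _))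
  exact h1.comp h2

/-- several maps, real functions, one sided averages -/
theorem invs_real [IsProbabilityMeasure μ] {m : ℕ} {T : Fin m → Equiv.Perm X} (hT : ∀ j, IsInv μ (T j))
    {P : Fin m → Polynomial ℝ} (hP : ∀ j, 0 < (P j).natDegree) {f : Fin m → X → ℝ} (hf : ∀ j, Measurable (f j))
    (hfb : ∃ C, ∀ j x, |f j x| ≤ C) :
    ∀ᵐ a : Fin m → ℝ, ∀ᵐ x ∂μ, Tendsto (fun N : ℕ => (1 / (N : ℝ)) * ∑ n ∈ Icc 1 N,
      ∏ j, f j ((T j ^ ⌊a j * (P j).eval (n : ℝ)⌋) x)) atTop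
        (nhds (∏ j, (μ[f j | MeasurableSpace.invariants (⇑(T j))]) x)) := by
  obtain ⟨C0, hC0⟩ := hfb
  set C : ℝ := max C0 0 with hCdef
  have hCnn : 0 ≤ C := le_max_right _ _
  have hC : ∀ j x, |f j x| ≤ C := fun j x => (hC0 j x).trans (le_max_left _ _)
  set g : Fin m → X → ℝ := fun j x => trunc C ((μ[f j | MeasurableSpace.invariants (⇑(T j))]) x) with hg
  have hgm : ∀ j, Measurable (g j) := by
    intro j
    have h1 : Measurable (μ[f j | MeasurableSpace.invariants (⇑(T j))]) :=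
      (stronglyMeasurable_condExp.mono (MeasurableSpace.invariants_le _)).measurable
    exact (measurable_trunc C).comp h1
  have hgeq : ∀ᵐ x ∂μ, ∀ j, g j x = (μ[f j | MeasurableSpace.invariants (⇑(T j))]) x := by
    rw [ae_all_iff]
    intro j
    filter_upwards [condExp_bd (m := MeasurableSpace.invariants (⇑(T j))) (μ := μ) hCnn (hC j)] with x hx
    exact trunc_eq hx
  have hmain := Pool.Agent.Y571.MC.prod X μ m volume
    (fun j x a n => f j ((T j ^ ⌊a * (P j).eval (n : ℝ)⌋) x)) g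
    (fun j n => ?_) hgm ⟨C, fun j x a n => hC j _⟩ ⟨C, fun j x => trunc_bd hCnn _⟩ (fun j => ?_)
  · have hv : (Measure.pi fun _ : Fin m => (volume : Measure ℝ)) = volume := rfl
    rw [hv] at hmain
    filter_upwards [hmain] with a ha
    filter_upwards [ha, hgeq] with x hx hxg
    simpa only [hxg] using hx
  · exact measurable_pow (hT j) (hf j) _
  · filter_upwards [map_poly (hT j) (hf j) ⟨C, hC j⟩ (hP j), hgeq] with x hx hxg B hB
    filter_upwards [hx B hB] with a ha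
    simpa only [hxg j] using ha

/-- two-sided averages from one-sided averages -/
lemma two_sided {φ : ℤ → ℂ} {L : ℂ}
    (hx1 : Tendsto (fun N : ℕ => (1 / (N : ℂ)) * ∑ n ∈ Icc 1 N, φ (n : ℤ)) atTop (nhds L))
    (hx2 : Tendsto (fun N : ℕ => (1 / (N : ℂ)) * ∑ n ∈ Icc 1 N, φ (-(n : ℤ))) atTop (nhds L)) :
    Tendsto (fun N : ℕ => (1 / (2 * (N : ℂ) + 1)) * ∑ n ∈ Icc (-(N : ℤ)) N, φ n) atTop (nhds L) := by
  have e1 : ∀ N : ℕ, ∑ n ∈ Icc (-(N : ℤ)) N, φ n = φ 0 + ∑ n ∈ Icc 1 N, φ (n : ℤ) + ∑ n ∈ Icc 1 N, φ (-(n : ℤ)) := by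
    intro N
    induction N with
    | zero => simp
    | succ N ih =>
      have hI : Icc (-((N + 1 : ℕ) : ℤ)) ((N + 1 : ℕ) : ℤ) =
          insert (-((N + 1 : ℕ) : ℤ)) (insert ((N + 1 : ℕ) : ℤ) (Icc (-(N : ℤ)) N)) := by
        ext z
        simp only [mem_Icc, mem_insert]
        push_cast
        omega
      rw [hI, sum_insert, sum_insert, ih, sum_Icc_succ_top (by omega), sum_Icc_succ_top (by omega)]
      · ring
      · simp only [mem_Icc]; push_cast; omega
      · simp only [mem_Icc, mem_insert]; push_cast; omega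
  have e4 : ∀ N : ℕ, (1 / (2 * (N : ℂ) + 1)) * ∑ n ∈ Icc (-(N : ℤ)) N, φ n =
      φ 0 * (1 / (2 * (N : ℂ) + 1)) + ((N : ℂ) / (2 * (N : ℂ) + 1)) *
        ((1 / (N : ℂ)) * ∑ n ∈ Icc 1 N, φ (n : ℤ) + (1 / (N : ℂ)) * ∑ n ∈ Icc 1 N, φ (-(n : ℤ))) := by
    intro N
    rw [e1]
    rcases Nat.eq_zero_or_pos N with rfl | hN
    · simp
    · have hN' : (N : ℂ) ≠ 0 := by exact_mod_cast hN.ne'
      field_simp
      ring
  have h5 : Tendsto (fun N : ℕ => (1 / (2 * (N : ℂ) + 1))) atTop (nhds 0) := by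
    have : Tendsto (fun N : ℕ => (((1 / (2 * (N : ℝ) + 1)) : ℝ) : ℂ)) atTop (nhds ((0 : ℝ) : ℂ)) := by
      refine (Complex.continuous_ofReal.tendsto _).comp ?_
      refine Tendsto.div_atTop tendsto_const_nhds ?_
      exact tendsto_atTop_add_const_right _ _ (Tendsto.const_mul_atTop (by norm_num) tendsto_natCast_atTop_atTop)
    simpa using this
  have h6 : Tendsto (fun N : ℕ => ((N : ℂ) / (2 * (N : ℂ) + 1))) atTop (nhds (1 / 2)) := by
    have e : (fun N : ℕ => ((N : ℂ) / (2 * (N : ℂ) + 1))) = fun N : ℕ => 1 / 2 - 1 / 2 * (1 / (2 * (N : ℂ) + 1)) := by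
      funext N
      have : (2 * (N : ℂ) + 1) ≠ 0 := by
        have : ((2 * (N : ℝ) + 1 : ℝ) : ℂ) ≠ 0 := by
          exact_mod_cast (by positivity : (2 * (N : ℝ) + 1) ≠ 0)
        simpa using this
      rw [div_eq_iff this, sub_mul, mul_assoc (1 / 2 : ℂ) (1 / (2 * (N : ℂ) + 1)), one_div_mul_cancel this]
      ring
    rw [e]
    have := (h5.const_mul (1 / 2 : ℂ)).const_sub (1 / 2 : ℂ)
    simpa using this
  have h7 := (h5.const_mul (φ 0)).add (h6.mul (hx1.add hx2))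
  have e5 : φ 0 * 0 + 1 / 2 * (L + L) = L := by ring
  rw [e5] at h7
  refine h7.congr fun N => ?_
  exact (e4 N).symm

/-- several maps, complex functions, two-sided averages -/
theorem invs_cx [IsProbabilityMeasure μ] {m : ℕ} {T : Fin m → Equiv.Perm X} (hT : ∀ j, IsInv μ (T j))
    {P : Fin m → Polynomial ℝ} (hP : ∀ j, 0 < (P j).natDegree) {f : Fin m → X → ℂ} (hf : ∀ j, Measurable (f j))
    (hfb : ∃ C, ∀ j x, ‖f j x‖ ≤ C) :
    ∀ᵐ a : Fin m → ℝ, ∀ᵐ x ∂μ, Tendsto (fun N : ℕ => (1 / (2 * (N : ℂ) + 1)) * ∑ n ∈ Icc (-(N : ℤ)) N,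
      ∏ j, f j ((T j ^ ⌊a j * (P j).eval (n : ℝ)⌋) x)) atTop
        (nhds (∏ j, (μ[f j | MeasurableSpace.invariants (⇑(T j))]) x)) := by
  have h1 := cx_of_real (μ := μ) (volume : Measure (Fin m → ℝ))
    (fun j a n x => (T j ^ ⌊a * (P j).eval (n : ℝ)⌋) x)
    (fun j => MeasurableSpace.invariants (⇑(T j))) (fun g hg hgb => invs_real hT hP hg hgb) hf hfb
  have h2 := cx_of_real (μ := μ) (volume : Measure (Fin m → ℝ))
    (fun j a n x => (T j ^ ⌊a * ((P j).comp (-Polynomial.X)).eval (n : ℝ)⌋) x)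
    (fun j => MeasurableSpace.invariants (⇑(T j)))
    (fun g hg hgb => invs_real hT (P := fun j => (P j).comp (-Polynomial.X)) (fun j => by
      have : ((P j).comp (-Polynomial.X)).natDegree = (P j).natDegree := by
        rw [Polynomial.natDegree_comp, Polynomial.natDegree_neg, Polynomial.natDegree_X, mul_one]
      rw [this]; exact hP j) hg hgb) hf hfb
  filter_upwards [h1, h2] with a ha1 ha2
  filter_upwards [ha1, ha2] with x hx1 hx2
  refine two_sided (φ := fun n : ℤ => ∏ j, f j ((T j ^ ⌊a j * (P j).eval (n : ℝ)⌋) x)) ?_ ?_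
  · simpa using hx1
  · simpa [Polynomial.eval_comp] using hx2

/-- several invertible maps, essentially bounded functions, two-sided averages -/
theorem invs_Linf [IsProbabilityMeasure μ] {m : ℕ} {T : Fin m → Equiv.Perm X} (hT : ∀ j, IsInv μ (T j))
    {P : Fin m → Polynomial ℝ} (hP : ∀ j, 0 < (P j).natDegree)
    {f : Fin m → X → ℂ} (hf : ∀ j, AEStronglyMeasurable (f j) μ) (hfb : ∀ j, ∃ C : ℝ, ∀ᵐ x ∂μ, ‖f j x‖ ≤ C) :
    ∀ᵐ a : Fin m → ℝ, ∀ᵐ x ∂μ, Tendsto (fun N : ℕ => (1 / (2 * (N : ℂ) + 1)) * ∑ n ∈ Icc (-(N : ℤ)) N,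
      ∏ j, f j ((T j ^ ⌊a j * (P j).eval (n : ℝ)⌋) x)) atTop
        (nhds (∏ j, (μ[f j | MeasurableSpace.invariants (⇑(T j))]) x)) := by
  choose g hgm hgb hfg using fun j => exists_version (hf j) (hfb j)
  choose C hC using hgb
  have hb : ∃ C' : ℝ, ∀ j x, ‖g j x‖ ≤ C' := by
    refine ⟨∑ j, |C j|, fun j x => (hC j x).trans ((le_abs_self _).trans ?_)⟩
    exact Finset.single_le_sum (f := fun j => |C j|) (fun i _ => abs_nonneg _) (Finset.mem_univ j)
  have h1 := invs_cx (μ := μ) hT hP hgm hb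
  have h2 : ∀ᵐ x ∂μ, ∀ j, (μ[f j | MeasurableSpace.invariants (⇑(T j))]) x =
      (μ[g j | MeasurableSpace.invariants (⇑(T j))]) x := by
    rw [ae_all_iff]
    exact fun j => condExp_congr_ae (hfg j)
  filter_upwards [h1] with a ha
  have h3 : ∀ᵐ x ∂μ, ∀ (n : ℤ) (j : Fin m), f j ((T j ^ ⌊a j * (P j).eval (n : ℝ)⌋) x) =
      g j ((T j ^ ⌊a j * (P j).eval (n : ℝ)⌋) x) := by
    rw [ae_all_iff]
    intro n
    rw [ae_all_iff]
    intro j
    exact ((hT j).zpow _).quasiMeasurePreserving.ae (hfg j)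
  filter_upwards [ha, h2, h3] with x hx hx2 hx3
  simpa only [hx2, hx3] using hx

end Pool.Agent.N201.BT
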