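import Pool.Agent.Y957.MC.Spec2

set_option autoImplicit false

/-! Linear forms modulo one on boxes: few values in a short arc. -/

namespace Pool.Agent.N201.BT

open MeasureTheory Filter Finset
open Pool.Agent.Y957.MC

/-- the distances of the multiples of an irrational number to the integers -/
lemma exists_gap {θ : ℝ} (hθ : Irrational θ) (Q : ℕ) :
    ∃ δ : ℝ, 0 < δ ∧ ∀ j : ℕ, 0 < j → j < Q → ∀ k : ℤ, δ ≤ |(j : ℝ) * θ - k| := by
  induction Q with
  | zero => exact ⟨1, one_pos, fun j _ h => absurd h (Nat.not_lt_zero j)⟩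
  | succ Q ih =>
    obtain ⟨δ, hδ, h⟩ := ih
    rcases Nat.eq_zero_or_pos Q with rfl | hQ
    · exact ⟨1, one_pos, fun j h1 h2 => absurd h2 (by omega)⟩
    · have h1 : Irrational ((Q : ℝ) * θ) := by
        have := hθ.natCast_mul (m := Q) hQ.ne'
        exact this
      have h2 : 0 < |(Q : ℝ) * θ - round ((Q : ℝ) * θ)| := by
        rw [abs_pos, sub_ne_zero]
        exact h1.ne_int _
      refine ⟨min δ |(Q : ℝ) * θ - round ((Q : ℝ) * θ)|, lt_min hδ h2, fun j hj1 hj2 k => ?_⟩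
      rcases Nat.lt_succ_iff_lt_or_eq.1 hj2 with h3 | rfl
      · exact (min_le_left _ _).trans (h j hj1 h3 k)
      · exact (min_le_right _ _).trans (round_le _ k)

/-- few values in a short arc -/
lemma count_arc {θ : ℝ} {Q : ℕ} (hQ : 0 < Q) {δ s : ℝ}
    (hδ : ∀ j : ℕ, 0 < j → j < Q → ∀ k : ℤ, δ ≤ |(j : ℝ) * θ - k|) (hs : s ≤ δ) (b : ℝ) (M : ℕ) :
    ((Icc 1 M).filter fun n : ℕ => 1 - s ≤ Int.fract (θ * n + b)).card ≤ M / Q + 1 := by
  have key : ∀ n n' : ℕ, n < n' → n' - n < Q → 1 - s ≤ Int.fract (θ * n + b) →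
      1 - s ≤ Int.fract (θ * n' + b) → False := by
    intro n n' h1 h2 h3 h4
    have h5 := hδ (n' - n) (by omega) h2 (⌊θ * n' + b⌋ - ⌊θ * n + b⌋)
    have h6 : ((n' - n : ℕ) : ℝ) * θ - ((⌊θ * n' + b⌋ - ⌊θ * n + b⌋ : ℤ) : ℝ) =
        Int.fract (θ * n' + b) - Int.fract (θ * n + b) := by
      rw [Nat.cast_sub h1.le, Int.fract, Int.fract]
      push_cast
      ring
    rw [h6] at h5
    have h7 := Int.fract_lt_one (θ * n + b)
    have h8 := Int.fract_lt_one (θ * n' + b)
    have h9 : |Int.fract (θ * n' + b) - Int.fract (θ * n + b)| < s := by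
      rw [abs_lt]
      constructor <;> linarith
    linarith
  have h1 : ((Icc 1 M).filter fun n : ℕ => 1 - s ≤ Int.fract (θ * n + b)).card ≤ (range (M / Q + 1)).card := by
    refine Finset.card_le_card_of_injOn (fun n => (n - 1) / Q) ?_ ?_
    · intro n hn
      have hn' := (mem_Icc.1 (mem_filter.1 (Finset.mem_coe.1 hn)).1)
      have : (n - 1) / Q ≤ M / Q := Nat.div_le_div_right (by omega)
      simp only [Finset.coe_range, Set.mem_Iio]
      omega
    · intro n hn n' hn' he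
      have hn1 := mem_filter.1 (Finset.mem_coe.1 hn)
      have hn2 := mem_filter.1 (Finset.mem_coe.1 hn')
      have a1 := mem_Icc.1 hn1.1
      have a2 := mem_Icc.1 hn2.1
      simp only at he
      have e1 := Nat.div_add_mod (n - 1) Q
      have e2 := Nat.div_add_mod (n' - 1) Q
      have m1 := Nat.mod_lt (n - 1) hQ
      have m2 := Nat.mod_lt (n' - 1) hQ
      rw [he] at e1
      rcases lt_trichotomy n n' with h | h | h
      · exact (key n n' h (by omega) hn1.2 hn2.2).elim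
      · exact h
      · exact (key n' n h (by omega) hn2.2 hn1.2).elim
  rwa [card_range] at h1

/-- counting in a box, one variable at a time -/
lemma count_box {k : ℕ} (i : Fin k) (M : Fin k → ℕ) (P : (Fin k → ℕ) → Prop) [DecidablePred P] (K : ℕ)
    (h : ∀ m : Fin k → ℕ, ((Icc 1 (M i)).filter fun n => P (Function.update m i n)).card ≤ K) :
    ((box M).filter P).card ≤ K * ∏ l, (Function.update M i 1) l := by
  classical
  have h1 := Finset.card_le_mul_card_image (s := (box M).filter P) (f := fun m => Function.update m i 1) K (by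
    intro a _
    refine (Finset.card_le_card_of_injOn (fun m => m i) ?_ ?_).trans (h a)
    · intro m hm
      have hm1 := mem_filter.1 (Finset.mem_coe.1 hm)
      have hm2 := mem_filter.1 hm1.1
      have hm3 : m = Function.update a i (m i) := by
        rw [← hm1.2]
        simp
      rw [Finset.mem_coe, mem_filter]
      refine ⟨Fintype.mem_piFinset.1 hm2.1 i, ?_⟩
      rw [← hm3]
      exact hm2.2
    · intro m hm m' hm' he
      have hm1 := mem_filter.1 (Finset.mem_coe.1 hm)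
      have hm1' := mem_filter.1 (Finset.mem_coe.1 hm')
      have e1 : m = Function.update a i (m i) := by
        rw [← hm1.2]
        simp
      have e2 : m' = Function.update a i (m' i) := by
        rw [← hm1'.2]
        simp
      simp only at he
      rw [e1, e2, he])
  refine h1.trans (Nat.mul_le_mul_left K ?_)
  have h2 : ((box M).filter P).image (fun m => Function.update m i 1) ⊆ box (Function.update M i 1) := by
    intro m hm
    obtain ⟨m', hm', rfl⟩ := mem_image.1 hm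
    have h3 := Fintype.mem_piFinset.1 (mem_filter.1 hm').1
    refine Fintype.mem_piFinset.2 fun l => ?_
    by_cases hl : l = i
    · subst hl
      simp
    · simp only [Function.update_of_ne hl]
      exact h3 l
  refine (card_le_card h2).trans ?_
  unfold Pool.Agent.Y957.MC.box
  rw [Fintype.card_piFinset]
  simp

lemma prod_update_one {k : ℕ} (i : Fin k) (M : Fin k → ℕ) :
    ∏ l, M l = M i * ∏ l, (Function.update M i 1) l := by
  rw [Finset.prod_update_of_mem (mem_univ i), one_mul, ← Finset.mul_prod_erase univ M (mem_univ i)]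
  congr 1
  rw [Finset.sdiff_singleton_eq_erase]

lemma lin_update {k : ℕ} (c : Fin k → ℝ) (i : Fin k) (m : Fin k → ℕ) (n : ℕ) :
    lin c (Function.update m i n) = c i * n + ∑ l ∈ univ.erase i, c l * (m l : ℝ) := by
  unfold lin
  rw [← Finset.add_sum_erase univ _ (mem_univ i)]
  simp only [Function.update_self]
  congr 1
  refine sum_congr rfl fun l hl => ?_
  rw [Function.update_of_ne (ne_of_mem_erase hl)]

/-- replacing `⌊s + y⌋` by `⌊y⌋` -/
lemma TZ_of_arcs {k : ℕ} {c : Fin k → ℝ} {i : Fin k} {a : ℝ} (hirr : Irrational (a * c i)) {C : ℝ}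
    {B : (Fin k → ℕ) → ℂ} (hB : ∀ m, ‖B m‖ ≤ 1) {g : ℤ → ℝ} (hg : ∀ n, |g n| ≤ C) {E : ℝ}
    {s : ℕ → ℝ} (hs0 : ∀ r, 0 ≤ s r) (hs : ∀ r, s r < 1 / ((r : ℝ) + 1))
    (h : ∀ r, TZ i (fun M => bavg M (fun m => B m * ((g ⌊s r + a * lin c m⌋ - E : ℝ) : ℂ)))) :
    TZ i (fun M => bavg M (fun m => B m * ((g ⌊a * lin c m⌋ - E : ℝ) : ℂ))) := by
  classical
  have hC0 : 0 ≤ C := (abs_nonneg _).trans (hg 0)
  intro ε hε
  obtain ⟨Q, hQ⟩ := exists_nat_gt (8 * C / ε)
  have hQ0 : 0 < (Q : ℝ) := lt_of_le_of_lt (by positivity) hQ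
  have hQ0' : 0 < Q := by exact_mod_cast hQ0
  obtain ⟨δ, hδ0, hδ⟩ := exists_gap hirr Q
  obtain ⟨r, hr⟩ := exists_nat_one_div_lt hδ0
  have hsr : s r ≤ δ := ((hs r).trans hr).le
  have hs1 : s r < 1 := by
    refine (hs r).trans_le ?_
    rw [div_le_one (by positivity)]
    linarith [(Nat.cast_nonneg r : (0 : ℝ) ≤ r)]
  obtain ⟨N₁, hN₁⟩ := h r (ε / 4) (by positivity)
  refine ⟨max N₁ (max Q 1), fun M hM hMi => ?_⟩
  have hM1 : ∀ l, N₁ ≤ M l := fun l => (le_max_left _ _).trans (hM l)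
  have hMQ : Q ≤ M i := (le_max_left _ _).trans ((le_max_right _ _).trans (hM i))
  have hM0 : ∀ l, 1 ≤ M l := fun l => (le_max_right _ _).trans ((le_max_right _ _).trans (hM l))
  have h1 := hN₁ M hM1 hMi
  have hcount : (((box M).filter fun m => 1 - s r ≤ Int.fract (a * lin c m)).card) ≤
      (M i / Q + 1) * ∏ l, (Function.update M i 1) l := by
    refine count_box i M _ _ fun m => ?_
    have h2 := count_arc hQ0' hδ hsr (a * ∑ l ∈ univ.erase i, c l * (m l : ℝ)) (M i)
    refine le_trans (le_of_eq ?_) h2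
    congr 1
    refine filter_congr fun n _ => ?_
    rw [lin_update]
    have : a * (c i * (n : ℝ) + ∑ l ∈ univ.erase i, c l * (m l : ℝ)) =
        a * c i * n + a * ∑ l ∈ univ.erase i, c l * (m l : ℝ) := by ring
    rw [this]
  set Pm : ℝ := ((∏ l, M l : ℕ) : ℝ) with hPm
  have hPm0 : 0 < Pm := by
    rw [hPm]
    exact_mod_cast Finset.prod_pos fun l _ => hM0 l
  have hfrac : (((box M).filter fun m => 1 - s r ≤ Int.fract (a * lin c m)).card : ℝ) ≤ Pm * (2 / Q) := by
    have h2 : (((box M).filter fun m => 1 - s r ≤ Int.fract (a * lin c m)).card : ℝ) ≤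
        (((M i / Q + 1) * ∏ l, (Function.update M i 1) l : ℕ) : ℝ) := by exact_mod_cast hcount
    refine h2.trans ?_
    rw [hPm, prod_update_one i M]
    push_cast
    have h3 : ((M i / Q : ℕ) : ℝ) ≤ (M i : ℝ) / Q := Nat.cast_div_le
    have h4 : (1 : ℝ) ≤ (M i : ℝ) / Q := by
      rw [one_le_div hQ0]
      exact_mod_cast hMQ
    have h5 : (0 : ℝ) ≤ ∏ l, ((Function.update M i 1 l : ℕ) : ℝ) := by positivity
    have h6 : ((M i / Q : ℕ) : ℝ) + 1 ≤ (M i : ℝ) * (2 / Q) := by
      have : (M i : ℝ) * (2 / Q) = (M i : ℝ) / Q + (M i : ℝ) / Q := by ring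
      rw [this]
      linarith
    calc (((M i / Q : ℕ) : ℝ) + 1) * ∏ l, ((Function.update M i 1 l : ℕ) : ℝ)
        ≤ ((M i : ℝ) * (2 / Q)) * ∏ l, ((Function.update M i 1 l : ℕ) : ℝ) :=
          mul_le_mul_of_nonneg_right h6 h5
      _ = (M i : ℝ) * (∏ l, ((Function.update M i 1 l : ℕ) : ℝ)) * (2 / Q) := by ring
  -- the difference
  have hdiff : ∀ m, ‖B m * ((g ⌊a * lin c m⌋ - E : ℝ) : ℂ) - B m * ((g ⌊s r + a * lin c m⌋ - E : ℝ) : ℂ)‖ ≤
      if 1 - s r ≤ Int.fract (a * lin c m) then 2 * C else 0 := by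
    intro m
    rw [← mul_sub, norm_mul]
    split_ifs with hm
    · have e1 : ((g ⌊a * lin c m⌋ - E : ℝ) : ℂ) - ((g ⌊s r + a * lin c m⌋ - E : ℝ) : ℂ) =
          ((g ⌊a * lin c m⌋ - g ⌊s r + a * lin c m⌋ : ℝ) : ℂ) := by
        push_cast
        ring
      rw [e1, Complex.norm_real, Real.norm_eq_abs]
      have e2 : |g ⌊a * lin c m⌋ - g ⌊s r + a * lin c m⌋| ≤ 2 * C := by
        have := abs_sub (g ⌊a * lin c m⌋) (g ⌊s r + a * lin c m⌋)
        linarith [hg ⌊a * lin c m⌋, hg ⌊s r + a * lin c m⌋]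
      calc ‖B m‖ * |g ⌊a * lin c m⌋ - g ⌊s r + a * lin c m⌋| ≤ 1 * (2 * C) :=
            mul_le_mul (hB m) e2 (abs_nonneg _) zero_le_one
        _ = 2 * C := one_mul _
    · push Not at hm
      have e1 : ⌊s r + a * lin c m⌋ = ⌊a * lin c m⌋ := by
        rw [Int.floor_eq_iff]
        have e2 := Int.floor_add_fract (a * lin c m)
        have e3 := Int.fract_nonneg (a * lin c m)
        have e4 := hs0 r
        constructor <;> linarith
      rw [e1, sub_self, norm_zero, mul_zero]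
  have h7 : ‖bavg M (fun m => B m * ((g ⌊a * lin c m⌋ - E : ℝ) : ℂ)) -
      bavg M (fun m => B m * ((g ⌊s r + a * lin c m⌋ - E : ℝ) : ℂ))‖ ≤ ε / 2 := by
    unfold bavg
    rw [← mul_sub, ← sum_sub_distrib, norm_mul, norm_div, norm_one, Complex.norm_natCast]
    have h8 : ‖∑ m ∈ box M, (B m * ((g ⌊a * lin c m⌋ - E : ℝ) : ℂ) - B m * ((g ⌊s r + a * lin c m⌋ - E : ℝ) : ℂ))‖ ≤
        Pm * (2 / Q) * (2 * C) := by
      refine (norm_sum_le _ _).trans ((sum_le_sum fun m _ => hdiff m).trans ?_)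
      rw [← sum_filter, sum_const, nsmul_eq_mul]
      exact mul_le_mul_of_nonneg_right hfrac (by positivity)
    have h9 : 4 * C / Q ≤ ε / 2 := by
      rw [div_le_iff₀ hQ0]
      have := (div_lt_iff₀ hε).1 hQ
      nlinarith
    calc 1 / Pm * ‖∑ m ∈ box M, (B m * ((g ⌊a * lin c m⌋ - E : ℝ) : ℂ) -
          B m * ((g ⌊s r + a * lin c m⌋ - E : ℝ) : ℂ))‖ ≤ 1 / Pm * (Pm * (2 / Q) * (2 * C)) :=
          mul_le_mul_of_nonneg_left h8 (by positivity)
      _ = 4 * C / Q := by
          field_simp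
          ring
      _ ≤ ε / 2 := h9
  have h10 := norm_add_le (bavg M (fun m => B m * ((g ⌊a * lin c m⌋ - E : ℝ) : ℂ)) -
      bavg M (fun m => B m * ((g ⌊s r + a * lin c m⌋ - E : ℝ) : ℂ)))
      (bavg M (fun m => B m * ((g ⌊s r + a * lin c m⌋ - E : ℝ) : ℂ)))
  rw [sub_add_cancel] at h10
  linarith

end Pool.Agent.N201.BT
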