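import Pool.Agent.Y957.MC.Maps
import Pool.Agent.Y957.MC.Ret

set_option autoImplicit false

/-! One map at generic Beatty type times against all bounded systems of weights. -/

namespace Pool.Agent.N201.BT

open MeasureTheory Filter Finset
open Pool.Agent.Y957.MC

universe u v

theorem weights_cx {Ω : Type u} [MeasurableSpace Ω] {μ₀ : Measure Ω} [IsProbabilityMeasure μ₀] {T : Ω → Ω}
    (hT : MeasurePreserving T μ₀ μ₀) {h : Ω → ℂ} (hh : Measurable h) (hhb : ∃ C : ℝ, ∀ x, ‖h x‖ ≤ C)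
    {p : ℕ → ℝ} (hp : Good p) :
    ∀ᵐ ω ∂μ₀, ∀ B : ℕ → ℂ, (∀ n, ‖B n‖ ≤ 1) → ∀ᵐ a : ℝ ∂(volume.restrict (Set.Ioi (0 : ℝ))),
      Tendsto (fun N : ℕ => (1 / (N : ℂ)) * ∑ n ∈ Icc 1 N, B n *
        (h (T^[⌊a * p n⌋₊] ω) - (μ₀[h | MeasurableSpace.invariants T]) ω)) atTop (nhds 0) := by
  obtain ⟨C, hC⟩ := hhb
  have hint : Integrable h μ₀ := Integrable.of_bound hh.aestronglyMeasurable C (ae_of_all _ hC)
  have hre := bty_all p hp Ω μ₀ T (fun x => (h x).re) hT (Complex.measurable_re.comp hh)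
    ⟨C, fun x => (Complex.abs_re_le_norm _).trans (hC x)⟩
  have him := bty_all p hp Ω μ₀ T (fun x => (h x).im) hT (Complex.measurable_im.comp hh)
    ⟨C, fun x => (Complex.abs_im_le_norm _).trans (hC x)⟩
  have h3 := condExp_re_im (m := MeasurableSpace.invariants T) hint
  filter_upwards [hre, him, h3] with ω h1 h2 h4 B hB
  filter_upwards [h1 B hB, h2 B hB] with a ha1 ha2
  have h8 := ha1.add (ha2.const_mul Complex.I)
  rw [mul_zero, add_zero] at h8
  refine h8.congr fun N => ?_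
  rw [← mul_assoc, mul_comm Complex.I, mul_assoc, ← mul_add, mul_sum, ← sum_add_distrib]
  congr 1
  refine sum_congr rfl fun n _ => ?_
  rw [h4]
  have e := Complex.re_add_im (h (T^[⌊a * p n⌋₊] ω))
  conv_rhs => rw [← e]
  push_cast
  ring

/-- measurable bounded versions of the weights -/
lemma weights_version {X : Type v} [MeasurableSpace X] {μ : Measure X} {W : ℕ → X → ℂ}
    (hWm : ∀ n, AEStronglyMeasurable (W n) μ) (hWb : ∃ C : ℝ, ∀ n, ∀ᵐ x ∂μ, ‖W n x‖ ≤ C) :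
    ∃ (D : ℝ) (V : ℕ → X → ℂ), 0 < D ∧ (∀ n, Measurable (V n)) ∧ (∀ n x, ‖V n x‖ ≤ 1) ∧
      ∀ᵐ x ∂μ, ∀ n, W n x / D = V n x := by
  obtain ⟨D0, hD0⟩ := hWb
  set D : ℝ := max D0 1 with hD
  have hD1 : 1 ≤ D := le_max_right _ _
  have hDpos : 0 < D := by linarith
  have hver : ∀ n, ∃ V : X → ℂ, Measurable V ∧ (∀ x, ‖V x‖ ≤ 1) ∧ (fun x => W n x / D) =ᵐ[μ] V := by
    intro n
    have hm : Measurable ((hWm n).mk (W n)) := (hWm n).stronglyMeasurable_mk.measurable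
    refine ⟨fun x => if ‖(hWm n).mk (W n) x / D‖ ≤ 1 then (hWm n).mk (W n) x / D else 0, ?_, fun x => ?_, ?_⟩
    · exact Measurable.ite (measurableSet_le (hm.div_const _).norm measurable_const) (hm.div_const _) measurable_const
    · dsimp only
      split_ifs with h
      · exact h
      · simp
    · filter_upwards [hD0 n, (hWm n).ae_eq_mk] with x h1 h2
      rw [← h2, if_pos]
      rw [norm_div, Complex.norm_real, Real.norm_of_nonneg hDpos.le, div_le_one hDpos]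
      exact h1.trans (le_max_left _ _)
  choose V hVm hV1 hVW using hver
  exact ⟨D, V, hDpos, hVm, hV1, by rw [ae_all_iff]; exact hVW⟩

lemma from_version {D : ℝ} (hD : 0 < D) {w v r s : ℕ → ℂ} (hwv : ∀ n, w n / D = v n) (hrs : ∀ n, r n = s n)
    (h : Tendsto (fun N : ℕ => (1 / (N : ℂ)) * ∑ n ∈ Icc 1 N, v n * r n) atTop (nhds 0)) :
    Tendsto (fun N : ℕ => (1 / (N : ℂ)) * ∑ n ∈ Icc 1 N, w n * s n) atTop (nhds 0) := by
  have h9 := h.const_mul (D : ℂ)
  rw [mul_zero] at h9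
  refine h9.congr fun N => ?_
  rw [← mul_assoc, mul_comm (D : ℂ), mul_assoc, mul_sum]
  congr 1
  refine sum_congr rfl fun n _ => ?_
  rw [← hwv n, hrs]
  have : (D : ℂ) ≠ 0 := by exact_mod_cast hD.ne'
  field_simp

lemma version_orbit {Ω : Type u} [MeasurableSpace Ω] {μ₀ : Measure Ω} {T : Ω → Ω} (hT : MeasurePreserving T μ₀ μ₀)
    {h g : Ω → ℂ} (hfg : h =ᵐ[μ₀] g) : ∀ᵐ ω ∂μ₀, (∀ k : ℕ, h (T^[k] ω) = g (T^[k] ω)) ∧
      (μ₀[h | MeasurableSpace.invariants T]) ω = (μ₀[g | MeasurableSpace.invariants T]) ω := by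
  have h2 : ∀ᵐ ω ∂μ₀, (μ₀[h | MeasurableSpace.invariants T]) ω = (μ₀[g | MeasurableSpace.invariants T]) ω :=
    condExp_congr_ae hfg
  have h3 : ∀ᵐ x ∂μ₀, ∀ k : ℕ, h (T^[k] x) = g (T^[k] x) := by
    rw [ae_all_iff]
    intro k
    exact (hT.iterate k).quasiMeasurePreserving.ae hfg
  filter_upwards [h2, h3] with ω a b
  exact ⟨b, a⟩

/-- for almost every `ω` all bounded systems of weights -/
theorem map_systems {Ω : Type u} [MeasurableSpace Ω] {μ₀ : Measure Ω} [IsProbabilityMeasure μ₀] {T : Ω → Ω}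
    (hT : MeasurePreserving T μ₀ μ₀) {h : Ω → ℂ} (hh : AEStronglyMeasurable h μ₀)
    (hhb : ∃ C : ℝ, ∀ᵐ x ∂μ₀, ‖h x‖ ≤ C) {p : ℕ → ℝ} (hp : Good p) :
    ∀ᵐ ω ∂μ₀, ∀ (X : Type v) [MeasurableSpace X] (μ : Measure X) [IsProbabilityMeasure μ] (W : ℕ → X → ℂ),
      (∀ n, AEStronglyMeasurable (W n) μ) → (∃ C : ℝ, ∀ n, ∀ᵐ x ∂μ, ‖W n x‖ ≤ C) → ∀ᵐ a : ℝ, 0 < a → ∀ᵐ x ∂μ,
      Tendsto (fun N : ℕ => (1 / (N : ℂ)) * ∑ n ∈ Icc 1 N, W n x *
        (h (T^[⌊a * p n⌋₊] ω) - (μ₀[h | MeasurableSpace.invariants T]) ω)) atTop (nhds 0) := by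
  obtain ⟨g, hgm, hgb, hfg⟩ := exists_version hh hhb
  filter_upwards [weights_cx hT hgm hgb hp, version_orbit hT hfg] with ω hω1 hω2
  intro X _ μ _ W hWm hWb
  obtain ⟨D, V, hD, hVm, hV1, hVW⟩ := weights_version hWm hWb
  have h7 : ∀ᵐ a : ℝ ∂(volume.restrict (Set.Ioi (0 : ℝ))), ∀ᵐ x ∂μ,
      Tendsto (fun N : ℕ => (1 / (N : ℂ)) * ∑ n ∈ Icc 1 N, V n x *
        (g (T^[⌊a * p n⌋₊] ω) - (μ₀[g | MeasurableSpace.invariants T]) ω)) atTop (nhds 0) := by
    have hset : MeasurableSet {q : X × ℝ | Tendsto (fun N : ℕ => (1 / (N : ℂ)) * ∑ n ∈ Icc 1 N, V n q.1 *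
        (g (T^[⌊q.2 * p n⌋₊] ω) - (μ₀[g | MeasurableSpace.invariants T]) ω)) atTop (nhds 0)} := by
      refine measurableSet_tendsto _ fun N => ?_
      refine measurable_const.mul (Finset.measurable_sum _ fun n _ => ?_)
      refine ((hVm n).comp measurable_fst).mul (Measurable.sub ?_ measurable_const)
      have h1 : Measurable fun k : ℕ => g (T^[k] ω) := measurable_from_nat
      exact h1.comp (Nat.measurable_floor.comp (measurable_snd.mul_const _))
    refine (Measure.ae_ae_comm hset).mp (ae_of_all _ fun x => ?_)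
    exact hω1 (fun n => V n x) (fun n => hV1 n x)
  rw [ae_restrict_iff' measurableSet_Ioi] at h7
  filter_upwards [h7] with a ha ha0
  filter_upwards [ha ha0, hVW] with x hx hx8
  exact from_version hD hx8 (fun n => by rw [hω2.1, hω2.2]) hx

/-- one generic factor on the same space, all bounded systems of weights -/
theorem map_same {Ω : Type u} [MeasurableSpace Ω] {μ₀ : Measure Ω} [IsProbabilityMeasure μ₀] {T : Ω → Ω}
    (hT : MeasurePreserving T μ₀ μ₀) {h : Ω → ℂ} (hh : AEStronglyMeasurable h μ₀)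
    (hhb : ∃ C : ℝ, ∀ᵐ x ∂μ₀, ‖h x‖ ≤ C) {p : ℕ → ℝ} (hp : Good p) {W : ℕ → Ω → ℂ}
    (hWm : ∀ n, AEStronglyMeasurable (W n) μ₀) (hWb : ∃ C : ℝ, ∀ n, ∀ᵐ x ∂μ₀, ‖W n x‖ ≤ C) :
    ∀ᵐ a : ℝ, 0 < a → ∀ᵐ x ∂μ₀, Tendsto (fun N : ℕ => (1 / (N : ℂ)) * ∑ n ∈ Icc 1 N, W n x *
        (h (T^[⌊a * p n⌋₊] x) - (μ₀[h | MeasurableSpace.invariants T]) x)) atTop (nhds 0) := by
  obtain ⟨g, hgm, hgb, hfg⟩ := exists_version hh hhb
  obtain ⟨D, V, hD, hVm, hV1, hVW⟩ := weights_version hWm hWb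
  have h7 : ∀ᵐ a : ℝ ∂(volume.restrict (Set.Ioi (0 : ℝ))), ∀ᵐ x ∂μ₀,
      Tendsto (fun N : ℕ => (1 / (N : ℂ)) * ∑ n ∈ Icc 1 N, V n x *
        (g (T^[⌊a * p n⌋₊] x) - (μ₀[g | MeasurableSpace.invariants T]) x)) atTop (nhds 0) := by
    have hset : MeasurableSet {q : Ω × ℝ | Tendsto (fun N : ℕ => (1 / (N : ℂ)) * ∑ n ∈ Icc 1 N, V n q.1 *
        (g (T^[⌊q.2 * p n⌋₊] q.1) - (μ₀[g | MeasurableSpace.invariants T]) q.1)) atTop (nhds 0)} := by
      refine measurableSet_tendsto _ fun N => ?_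
      refine measurable_const.mul (Finset.measurable_sum _ fun n _ => ?_)
      refine ((hVm n).comp measurable_fst).mul (Measurable.sub ?_ ?_)
      · have h1 : Measurable fun q : Ω × ℕ => g (T^[q.2] q.1) :=
          measurable_from_prod_countable_left fun k => hgm.comp (hT.iterate k).measurable
        have h2 : Measurable fun q : Ω × ℝ => (q.1, ⌊q.2 * p n⌋₊) :=
          measurable_fst.prodMk (Nat.measurable_floor.comp (measurable_snd.mul_const _))
        exact h1.comp h2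
      · have h1 : Measurable (μ₀[g | MeasurableSpace.invariants T]) :=
          (stronglyMeasurable_condExp.mono (MeasurableSpace.invariants_le T)).measurable
        exact h1.comp measurable_fst
    refine (Measure.ae_ae_comm hset).mp ?_
    filter_upwards [weights_cx hT hgm hgb hp] with x hx
    exact hx (fun n => V n x) (fun n => hV1 n x)
  rw [ae_restrict_iff' measurableSet_Ioi] at h7
  filter_upwards [h7] with a ha ha0
  filter_upwards [ha ha0, hVW, version_orbit hT hfg] with x hx hx8 hω2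
  exact from_version hD hx8 (fun n => by rw [hω2.1, hω2.2]) hx

end Pool.Agent.N201.BT
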