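import Pool.Agent.N201.BT.Sus
import Pool.Agent.N201.BT.Arc
import Pool.Agent.N201.BT.B
import Pool.Agent.R497.Er.BoxW

set_option autoImplicit false

/-! Arbitrary invertible maps at the integer parts of generic multiples of linear forms, unrestricted boxes. -/

namespace Pool.Agent.N201.BT

open MeasureTheory Filter Finset
open Pool.Agent.Y957.MC

universe u

variable {X : Type u} [MeasurableSpace X] {μ : Measure X}

lemma ae_irrational {c : ℝ} (hc : c ≠ 0) : ∀ᵐ a : ℝ, Irrational (a * c) := by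
  have h1 : ∀ᵐ a : ℝ, ∀ q : ℚ, a ≠ (q : ℝ) / c := by
    rw [ae_all_iff]
    intro q
    rw [ae_iff]
    simp
  filter_upwards [h1] with a ha
  rintro ⟨q, hq⟩
  exact ha q (by rw [hq]; field_simp)

/-- an almost sure property of the circle holds at points with small representatives -/
lemma exists_small {Q : UnitAddCircle → Prop} (h : ∀ᵐ s : UnitAddCircle, Q s) (r : ℕ) :
    ∃ s, Q s ∧ rep s < 1 / ((r : ℝ) + 1) := by
  have h1 : ∀ᵐ u : ℝ ∂(volume.restrict (Set.Ioc (0 : ℝ) (0 + 1))), Q (u : UnitAddCircle) :=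
    (UnitAddCircle.measurePreserving_mk 0).quasiMeasurePreserving.ae h
  have hr0 : (0 : ℝ) < 1 / ((r : ℝ) + 1) := by positivity
  have hr1 : 1 / ((r : ℝ) + 1) ≤ 1 := by
    rw [div_le_one (by positivity)]
    linarith [(Nat.cast_nonneg r : (0 : ℝ) ≤ r)]
  have h2 : ∀ᵐ u : ℝ ∂(volume.restrict (Set.Ioo (0 : ℝ) (1 / ((r : ℝ) + 1)))), Q (u : UnitAddCircle) := by
    refine ae_restrict_of_ae_restrict_of_subset (fun u hu => ?_) h1
    exact ⟨hu.1, by rw [zero_add]; exact (hu.2.trans_le hr1).le⟩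
  have h3 : ∀ᵐ u : ℝ ∂(volume.restrict (Set.Ioo (0 : ℝ) (1 / ((r : ℝ) + 1)))), u ∈ Set.Ioo (0 : ℝ) (1 / ((r : ℝ) + 1)) :=
    ae_restrict_mem measurableSet_Ioo
  have hne : (volume.restrict (Set.Ioo (0 : ℝ) (1 / ((r : ℝ) + 1)))) ≠ 0 := by
    intro h0
    rw [Measure.restrict_eq_zero, Real.volume_Ioo, sub_zero, ENNReal.ofReal_eq_zero] at h0
    linarith
  have : (ae (volume.restrict (Set.Ioo (0 : ℝ) (1 / ((r : ℝ) + 1))))).NeBot := ae_neBot.2 hne
  obtain ⟨u, hu1, hu2⟩ := (h2.and h3).exists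
  refine ⟨(u : UnitAddCircle), hu1, ?_⟩
  rw [rep_coe, Int.fract_eq_self.2 ⟨hu2.1.le, hu2.2.trans_le hr1⟩]
  exact hu2.2

/-- one invertible map, real functions, all bounded arrays of weights -/
theorem map_boxes [IsProbabilityMeasure μ] {T : Equiv.Perm X} (hT : IsInv μ T) {f : X → ℝ} (hf : Measurable f)
    (hfb : ∃ C, ∀ x, |f x| ≤ C) (k : ℕ) (c : Fin k → ℝ) (i : Fin k) (hi : c i ≠ 0) :
    ∀ᵐ x ∂μ, ∀ B : (Fin k → ℕ) → ℂ, (∀ m, ‖B m‖ ≤ 1) → ∀ᵐ a : ℝ,
      TZ i (fun M => bavg M (fun m => B m *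
        (((f ((T ^ ⌊a * lin c m⌋) x) - (μ[f | MeasurableSpace.invariants (⇑T)]) x : ℝ)) : ℂ))) := by
  obtain ⟨C, hC⟩ := hfb
  haveI : IsProbabilityMeasure (volume : Measure UnitAddCircle) := ⟨UnitAddCircle.measure_univ⟩
  have h1 := flwc_all.{u} k c i hi (UnitAddCircle × X) ((volume : Measure UnitAddCircle).prod μ) (sus T)
    (fun q => f q.2) (sus_flow hT) (hf.comp measurable_snd) ⟨C, fun q => hC q.2⟩
  have h2 := condExp_sus hT hf ⟨C, hC⟩
  have h3 : ∀ᵐ p ∂((volume : Measure UnitAddCircle).prod μ), ∀ B : (Fin k → ℕ) → ℂ, (∀ m, ‖B m‖ ≤ 1) → ∀ᵐ a : ℝ,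
      TZ i (fun M => bavg M (fun m => B m *
        (((f ((T ^ ⌊rep p.1 + a * lin c m⌋) p.2) - (μ[f | MeasurableSpace.invariants (⇑T)]) p.2 : ℝ)) : ℂ))) := by
    filter_upwards [h1, h2] with p hp1 hp2 B hB
    rw [hp2] at hp1
    exact hp1 B hB
  have h4 := (Measure.measurePreserving_swap (μ := μ) (ν := (volume : Measure UnitAddCircle))).quasiMeasurePreserving.ae h3
  have h5 := Measure.ae_ae_of_ae_prod h4
  filter_upwards [h5] with x hx B hB
  choose s hs1 hs2 using fun r : ℕ => exists_small hx r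
  have h6 : ∀ᵐ a : ℝ, ∀ r : ℕ, TZ i (fun M => bavg M (fun m => B m *
        (((f ((T ^ ⌊rep (s r) + a * lin c m⌋) x) - (μ[f | MeasurableSpace.invariants (⇑T)]) x : ℝ)) : ℂ))) := by
    rw [ae_all_iff]
    intro r
    exact hs1 r B hB
  filter_upwards [h6, ae_irrational hi] with a ha1 ha2
  exact TZ_of_arcs ha2 hB (g := fun n => f ((T ^ n) x)) (C := C) (fun n => hC _) (fun r => rep_nonneg (s r)) hs2 ha1

lemma measurable_flin {β : Type*} [MeasurableSpace β] {T : Equiv.Perm X} (hT : IsInv μ T) {f : X → β}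
    (hf : Measurable f) (c : ℝ) : Measurable fun q : ℝ × X => f ((T ^ ⌊q.1 * c⌋) q.2) :=
  (measurable_pow hT hf c).comp measurable_swap

theorem boxm_real [IsProbabilityMeasure μ] {k n : ℕ} {T : Fin n → Equiv.Perm X} (hT : ∀ j, IsInv μ (T j))
    {c : Fin n → Fin k → ℝ} (hc : ∀ j, c j ≠ 0)
    {f : Fin n → X → ℝ} (hf : ∀ j, Measurable (f j)) (hfb : ∃ C, ∀ j x, |f j x| ≤ C) :
    ∀ᵐ a : Fin n → ℝ, ∀ᵐ x ∂μ, Tendsto (fun M : Fin k → ℕ => (1 / ((∏ l, M l : ℕ) : ℝ)) *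
      ∑ m ∈ Pool.Agent.Y957.MC.box M, ∏ j, f j ((T j ^ ⌊a j * lin (c j) m⌋) x)) atTop
        (nhds (∏ j, (μ[f j | MeasurableSpace.invariants (⇑(T j))]) x)) := by
  obtain ⟨C0, hC0⟩ := hfb
  set C : ℝ := max C0 0 with hCdef
  have hCnn : 0 ≤ C := le_max_right _ _
  have hCb : ∀ j x, |f j x| ≤ C := fun j x => (hC0 j x).trans (le_max_left _ _)
  set g : Fin n → X → ℝ := fun j x => trunc C ((μ[f j | MeasurableSpace.invariants (⇑(T j))]) x) with hg
  have hgm : ∀ j, Measurable (g j) := by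
    intro j
    have h1 : Measurable (μ[f j | MeasurableSpace.invariants (⇑(T j))]) :=
      (stronglyMeasurable_condExp.mono (MeasurableSpace.invariants_le _)).measurable
    exact (measurable_trunc C).comp h1
  have hgeq : ∀ᵐ x ∂μ, ∀ j, g j x = (μ[f j | MeasurableSpace.invariants (⇑(T j))]) x := by
    rw [ae_all_iff]
    intro j
    filter_upwards [condExp_bd (m := MeasurableSpace.invariants (⇑(T j))) (μ := μ) hCnn (hCb j)] with x hx
    exact trunc_eq hx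
  have hmain := Pool.Agent.Y259.MC.prodc X μ k n volume (fun j => supp (c j))
    (fun j x a m => f j ((T j ^ ⌊a * lin (c j) m⌋) x)) g
    (fun j => supp_nonempty (hc j)) (fun j x a m m' h => by
      have := lin_congr h
      simp only [this]) (fun j m => measurable_pow (hT j) (hf j) _) hgm ⟨C, fun j x a m => hCb j _⟩
    ⟨C, fun j x => trunc_bd hCnn _⟩ (fun j i hi => ?_)
  · have hv : (Measure.pi fun _ : Fin n => (volume : Measure ℝ)) = volume := rfl
    rw [hv] at hmain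
    filter_upwards [hmain] with a ha
    filter_upwards [ha, hgeq] with x hx hxg
    rw [Metric.tendsto_atTop]
    intro ε hε
    obtain ⟨N₀, hN₀⟩ := hx (ε / 2) (by positivity)
    refine ⟨fun _ => N₀, fun M hM => ?_⟩
    have h1 := hN₀ M (fun l => hM l)
    rw [Real.dist_eq]
    simp only [hxg] at h1
    linarith
  · have hi' : c j i ≠ 0 := mem_supp.mp hi
    filter_upwards [map_boxes (hT j) (hf j) ⟨C, hCb j⟩ k (c j) i hi', hgeq] with x hx hxg B hB
    filter_upwards [hx B hB] with a ha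
    simpa only [hxg j] using ha

theorem boxm_Linf [IsProbabilityMeasure μ] {k n : ℕ} {T : Fin n → Equiv.Perm X} (hT : ∀ j, IsInv μ (T j))
    {c : Fin n → Fin k → ℝ} (hc : ∀ j, c j ≠ 0)
    {f : Fin n → X → ℂ} (hf : ∀ j, AEStronglyMeasurable (f j) μ) (hfb : ∀ j, ∃ C : ℝ, ∀ᵐ x ∂μ, ‖f j x‖ ≤ C) :
    ∀ᵐ a : Fin n → ℝ, ∀ᵐ x ∂μ, Tendsto (fun M : Fin k → ℕ => (1 / ((∏ l, M l : ℕ) : ℂ)) *
      ∑ m ∈ Pool.Agent.Y957.MC.box M, ∏ j, f j ((T j ^ ⌊a j * lin (c j) m⌋) x)) atTop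
        (nhds (∏ j, (μ[f j | MeasurableSpace.invariants (⇑(T j))]) x)) := by
  choose g hgm hgb hfg using fun j => exists_version (hf j) (hfb j)
  choose C hC' using hgb
  have hb : ∃ C' : ℝ, ∀ j x, ‖g j x‖ ≤ C' := by
    refine ⟨∑ j, |C j|, fun j x => (hC' j x).trans ((le_abs_self _).trans ?_)⟩
    exact Finset.single_le_sum (f := fun j => |C j|) (fun i _ => abs_nonneg _) (Finset.mem_univ j)
  have h1 := cx_gen (μ := μ) (atTop : Filter (Fin k → ℕ)) Pool.Agent.Y957.MC.box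
    (fun M => 1 / ((∏ l, M l : ℕ) : ℝ))
    (volume : Measure (Fin n → ℝ)) (fun j a m x => (T j ^ ⌊a * lin (c j) m⌋) x)
    (fun j => MeasurableSpace.invariants (⇑(T j)))
    (fun g hg hgb => boxm_real hT hc hg hgb) hgm hb
  have h2 : ∀ᵐ x ∂μ, ∀ j, (μ[f j | MeasurableSpace.invariants (⇑(T j))]) x =
      (μ[g j | MeasurableSpace.invariants (⇑(T j))]) x := by
    rw [ae_all_iff]
    exact fun j => condExp_congr_ae (hfg j)
  filter_upwards [h1] with a ha
  have h3 : ∀ᵐ x ∂μ, ∀ (m : Fin k → ℕ) (j : Fin n), f j ((T j ^ ⌊a j * lin (c j) m⌋) x) =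
      g j ((T j ^ ⌊a j * lin (c j) m⌋) x) := by
    rw [ae_all_iff]
    intro m
    rw [ae_all_iff]
    intro j
    exact ((hT j).zpow _).quasiMeasurePreserving.ae (hfg j)
  filter_upwards [ha, h2, h3] with x hx hx2 hx3
  simp only [hx2, hx3]
  refine hx.congr fun M => ?_
  push_cast
  rfl

/-- one factor, complex functions, all bounded arrays of weights -/
theorem boxm_cx [IsProbabilityMeasure μ] {k : ℕ} (hk : 0 < k) {T : Equiv.Perm X} (hT : IsInv μ T)
    {c : Fin k → ℝ} (hc : ∀ i, c i ≠ 0) {g : X → ℂ} (hgm : Measurable g) (hgb : ∃ C : ℝ, ∀ x, ‖g x‖ ≤ C) :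
    ∀ᵐ x ∂μ, ∀ B : (Fin k → ℕ) → ℂ, (∀ m, ‖B m‖ ≤ 1) → ∀ᵐ a : ℝ,
      Tendsto (fun M => bavg M (fun m => B m * (g ((T ^ ⌊a * lin c m⌋) x) -
        (μ[g | MeasurableSpace.invariants (⇑T)]) x))) atTop (nhds 0) := by
  obtain ⟨C, hC⟩ := hgb
  have hint : Integrable g μ := Integrable.of_bound hgm.aestronglyMeasurable C (ae_of_all _ hC)
  have hre : ∀ᵐ x ∂μ, ∀ i : Fin k, _ := ae_all_iff.2 fun i => map_boxes hT (f := fun x => (g x).re)
    (Complex.measurable_re.comp hgm) ⟨C, fun x => (Complex.abs_re_le_norm _).trans (hC x)⟩ k c i (hc i)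
  have him : ∀ᵐ x ∂μ, ∀ i : Fin k, _ := ae_all_iff.2 fun i => map_boxes hT (f := fun x => (g x).im)
    (Complex.measurable_im.comp hgm) ⟨C, fun x => (Complex.abs_im_le_norm _).trans (hC x)⟩ k c i (hc i)
  have h3 := condExp_re_im (m := MeasurableSpace.invariants (⇑T)) hint
  filter_upwards [hre, him, h3] with x hx1 hx2 hx4 B hB
  have ha1' : ∀ᵐ a : ℝ, ∀ i : Fin k, _ := ae_all_iff.2 fun i => hx1 i B hB
  have ha2' : ∀ᵐ a : ℝ, ∀ i : Fin k, _ := ae_all_iff.2 fun i => hx2 i B hB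
  filter_upwards [ha1', ha2'] with a ha1 ha2
  have h5 := Pool.Agent.R497.Er.tendsto_of_TZ hk ha1
  have h6 := Pool.Agent.R497.Er.tendsto_of_TZ hk ha2
  have h8 := h5.add (h6.const_mul Complex.I)
  rw [mul_zero, add_zero] at h8
  refine h8.congr fun M => ?_
  rw [← Pool.Agent.R497.Er.bavg_mul, ← Pool.Agent.R497.Er.bavg_add]
  congr 1
  funext m
  rw [hx4]
  have e := Complex.re_add_im (g ((T ^ ⌊a * lin c m⌋) x))
  conv_rhs => rw [← e]
  push_cast
  ring

/-- weights which depend measurably on the point -/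
theorem boxm_weights [IsProbabilityMeasure μ] {k : ℕ} (hk : 0 < k) {T : Equiv.Perm X} (hT : IsInv μ T)
    {c : Fin k → ℝ} (hc : ∀ i, c i ≠ 0) {h : X → ℂ}
    (hh : AEStronglyMeasurable h μ) (hhb : ∃ C : ℝ, ∀ᵐ x ∂μ, ‖h x‖ ≤ C) {W : (Fin k → ℕ) → X → ℂ}
    (hW : ∀ m, AEStronglyMeasurable (W m) μ) (hWb : ∃ C : ℝ, ∀ m, ∀ᵐ x ∂μ, ‖W m x‖ ≤ C) :
    ∀ᵐ a : ℝ, ∀ᵐ x ∂μ,
      Tendsto (fun M => bavg M (fun m => W m x * (h ((T ^ ⌊a * lin c m⌋) x) -
        (μ[h | MeasurableSpace.invariants (⇑T)]) x))) atTop (nhds 0) := by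
  obtain ⟨C0, hC0⟩ := hWb
  obtain ⟨D, hD⟩ : ∃ D : ℝ, D = |C0| + 1 := ⟨_, rfl⟩
  have hD0 : 0 < D := by rw [hD]; positivity
  have hC0D : C0 ≤ D := by rw [hD]; linarith [le_abs_self C0]
  -- versions
  obtain ⟨g, hgm, ⟨C, hC⟩, hfg⟩ := exists_version hh hhb
  set W' : (Fin k → ℕ) → X → ℂ := fun n x => if ‖(hW n).mk (W n) x‖ ≤ D then (hW n).mk (W n) x else 0 with hW'
  have hWm : ∀ n, Measurable (W' n) := fun n =>
    Measurable.ite (measurableSet_le (hW n).stronglyMeasurable_mk.measurable.norm measurable_const)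
      (hW n).stronglyMeasurable_mk.measurable measurable_const
  have hWD : ∀ n x, ‖W' n x‖ ≤ D := by
    intro n x
    simp only [hW']
    split_ifs with h1
    · exact h1
    · rw [norm_zero]; exact hD0.le
  have hWeq : ∀ᵐ x ∂μ, ∀ n, W n x = W' n x := by
    rw [ae_all_iff]
    intro n
    filter_upwards [hC0 n, (hW n).ae_eq_mk] with x h1 h2
    simp only [hW']
    rw [← h2, if_pos (h1.trans hC0D)]
  set E : X → ℂ := μ[g | MeasurableSpace.invariants (⇑T)] with hE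
  have hEm : Measurable E :=
    (stronglyMeasurable_condExp.mono (MeasurableSpace.invariants_le _)).measurable
  have hEeq : ∀ᵐ x ∂μ, (μ[h | MeasurableSpace.invariants (⇑T)]) x = E x := condExp_congr_ae hfg
  have h7 : ∀ᵐ a : ℝ, ∀ᵐ x ∂μ, Tendsto (fun M => bavg M (fun m => W' m x * (g ((T ^ ⌊a * lin c m⌋) x) - E x)))
      atTop (nhds 0) := by
    have hset : MeasurableSet {q : X × ℝ | Tendsto (fun M => bavg M (fun m => W' m q.1 *
        (g ((T ^ ⌊q.2 * lin c m⌋) q.1) - E q.1))) atTop (nhds 0)} := by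
      refine measurableSet_tendsto _ fun M => ?_
      unfold bavg
      refine measurable_const.mul (Finset.measurable_sum _ fun m _ => ?_)
      exact ((hWm m).comp measurable_fst).mul ((measurable_pow hT hgm _).sub (hEm.comp measurable_fst))
    refine (Measure.ae_ae_comm hset).mp ?_
    filter_upwards [boxm_cx hk hT hc hgm ⟨C, hC⟩] with x hx
    have h8 : ∀ m, ‖W' m x / D‖ ≤ 1 := by
      intro m
      rw [norm_div, Complex.norm_real, Real.norm_of_nonneg hD0.le, div_le_one hD0]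
      exact hWD m x
    filter_upwards [hx (fun m => W' m x / D) h8] with a ha
    have h9 := ha.const_mul (D : ℂ)
    rw [mul_zero] at h9
    refine h9.congr fun M => ?_
    rw [← Pool.Agent.R497.Er.bavg_mul]
    congr 1
    funext m
    have : (D : ℂ) ≠ 0 := by exact_mod_cast hD0.ne'
    field_simp
    rfl
  filter_upwards [h7] with a ha
  have h3 : ∀ᵐ x ∂μ, ∀ m : Fin k → ℕ, h ((T ^ ⌊a * lin c m⌋) x) = g ((T ^ ⌊a * lin c m⌋) x) := by
    rw [ae_all_iff]
    intro m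
    exact (hT.zpow _).quasiMeasurePreserving.ae hfg
  filter_upwards [ha, h3, hWeq, hEeq] with x hx hx3 hxW hxE
  simpa only [hx3, hxW, hxE] using hx

end Pool.Agent.N201.BT
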