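import Pool.Agent.N201.BT.A

set_option autoImplicit false

/-! The suspension flow of an invertible map. -/

namespace Pool.Agent.N201.BT

open MeasureTheory Filter Finset
open Pool.Agent.Y957.MC

universe u

/-- the representative in `[0, 1)` -/
noncomputable def rep (s : UnitAddCircle) : ℝ := (AddCircle.equivIco 1 0 s : ℝ)

lemma rep_nonneg (s : UnitAddCircle) : 0 ≤ rep s := (AddCircle.equivIco 1 0 s).2.1

lemma rep_lt (s : UnitAddCircle) : rep s < 1 := by
  have := (AddCircle.equivIco 1 0 s).2.2
  simpa [rep] using this

lemma rep_coe (t : ℝ) : rep (t : UnitAddCircle) = Int.fract t := by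
  have := AddCircle.coe_equivIco_mk_apply (p := (1 : ℝ)) t
  simpa [rep] using this

lemma coe_rep (s : UnitAddCircle) : ((rep s : ℝ) : UnitAddCircle) = s := by
  exact (AddCircle.equivIco 1 0).symm_apply_apply s

lemma measurable_rep : Measurable rep :=
  measurable_subtype_coe.comp (AddCircle.measurableEquivIco 1 0).measurable

lemma rep_add (s : UnitAddCircle) (t : ℝ) : rep (s + (t : UnitAddCircle)) = Int.fract (rep s + t) := by
  conv_lhs => rw [← coe_rep s]
  rw [← AddCircle.coe_add, rep_coe]

variable {X : Type u} [MeasurableSpace X]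

/-- the suspension flow -/
noncomputable def sus (T : Equiv.Perm X) (t : ℝ) (p : UnitAddCircle × X) : UnitAddCircle × X :=
  (p.1 + (t : UnitAddCircle), (T ^ ⌊rep p.1 + t⌋) p.2)

lemma measurable_apply {μ : Measure X} {T : Equiv.Perm X} (hT : IsInv μ T) :
    Measurable fun q : X × ℤ => (T ^ q.2) q.1 :=
  measurable_from_prod_countable_left fun k => (hT.zpow k).measurable

theorem sus_flow {μ : Measure X} [IsProbabilityMeasure μ] {T : Equiv.Perm X} (hT : IsInv μ T) :
    IsFlow ((volume : Measure UnitAddCircle).prod μ) (sus T) := by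
  have hmeas : Measurable fun p : ℝ × (UnitAddCircle × X) => sus T p.1 p.2 := by
    refine Measurable.prodMk ?_ ?_
    · refine (measurable_fst.comp measurable_snd).add ?_
      have h1 : Measurable fun t : ℝ => (t : UnitAddCircle) := (AddCircle.continuous_mk' 1).measurable
      exact h1.comp measurable_fst
    · have h1 : Measurable fun p : ℝ × (UnitAddCircle × X) => (p.2.2, ⌊rep p.2.1 + p.1⌋) :=
        (measurable_snd.comp measurable_snd).prodMk
          (((measurable_rep.comp (measurable_fst.comp measurable_snd)).add measurable_fst).floor)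
      exact (measurable_apply hT).comp h1
  refine ⟨hmeas, ?_, ?_, ?_⟩
  · rintro ⟨s, x⟩
    have h1 : ⌊rep s + 0⌋ = 0 := by
      rw [add_zero]
      exact Int.floor_eq_zero_iff.2 ⟨rep_nonneg s, rep_lt s⟩
    simp only [sus, h1, zpow_zero, Equiv.Perm.coe_one, id]
    simp
  · rintro s t ⟨r, x⟩
    have h1 : ⌊rep (r + (t : UnitAddCircle)) + s⌋ = ⌊rep r + (s + t)⌋ - ⌊rep r + t⌋ := by
      rw [rep_add, Int.fract, ← Int.floor_sub_intCast]
      congr 1
      ring
    simp only [sus]
    rw [h1]
    refine Prod.ext ?_ ?_
    · simp only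
      rw [AddCircle.coe_add, add_assoc, add_comm (s : UnitAddCircle)]
    · simp only
      rw [← Equiv.Perm.mul_apply, ← zpow_add, sub_add_cancel]
  · intro t
    have h1 : MeasurePreserving (fun s : UnitAddCircle => s + (t : UnitAddCircle)) volume volume :=
      measurePreserving_add_right volume _
    refine MeasurePreserving.skew_product (g := fun (s : UnitAddCircle) (x : X) => (T ^ ⌊rep s + t⌋) x) h1 ?_ ?_
    · have h2 : Measurable fun p : UnitAddCircle × X => (p.2, ⌊rep p.1 + t⌋) :=
        measurable_snd.prodMk (((measurable_rep.comp measurable_fst).add_const t).floor)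
      exact (measurable_apply hT).comp h2
    · exact ae_of_all _ fun s => (hT.zpow _).map_eq

lemma invariant_zpow {T : Equiv.Perm X} {β : Type*} {E : X → β} (h : E ∘ T = E) (k : ℤ) (x : X) :
    E ((T ^ k) x) = E x := by
  have h1 : ∀ (n : ℕ) (y : X), E (T^[n] y) = E y := by
    intro n
    induction n with
    | zero => intro y; rfl
    | succ n ih =>
      intro y
      rw [Function.iterate_succ_apply', ← ih y]
      exact congrFun h _
  obtain ⟨n, rfl | rfl⟩ := k.eq_nat_or_neg
  · rw [coe_pow_nat]
    exact h1 n x
  · rw [coe_pow_neg]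
    have h2 := h1 n (T.symm^[n] x)
    have h3 : T^[n] (T.symm^[n] x) = x := by
      have : Function.LeftInverse (T^[n]) (T.symm^[n]) :=
        Function.LeftInverse.iterate T.right_inv n
      exact this x
    rw [h3] at h2
    exact h2.symm

/-- the conditional expectation for the suspension flow -/
theorem condExp_sus {μ : Measure X} [IsProbabilityMeasure μ] {T : Equiv.Perm X} (hT : IsInv μ T)
    {f : X → ℝ} (hf : Measurable f) (hfb : ∃ C, ∀ x, |f x| ≤ C) :
    ∀ᵐ p ∂((volume : Measure UnitAddCircle).prod μ),
      ((((volume : Measure UnitAddCircle).prod μ))[fun q => f q.2 | flowInv (sus T)]) p =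
        (μ[f | MeasurableSpace.invariants (⇑T)]) p.2 := by
  obtain ⟨C, hC⟩ := hfb
  have hfi : Integrable f μ := Integrable.of_bound hf.aestronglyMeasurable C (ae_of_all _ hC)
  have hEm : Measurable[MeasurableSpace.invariants (⇑T)] (μ[f | MeasurableSpace.invariants (⇑T)]) :=
    stronglyMeasurable_condExp.measurable
  have hE : (μ[f | MeasurableSpace.invariants (⇑T)]) ∘ T = (μ[f | MeasurableSpace.invariants (⇑T)]) :=
    MeasurableSpace.comp_eq_of_measurable_invariants hEm
  have hEm' : Measurable (μ[f | MeasurableSpace.invariants (⇑T)]) :=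
    hEm.mono (MeasurableSpace.invariants_le _) le_rfl
  have hFi : Integrable (fun q : UnitAddCircle × X => f q.2) ((volume : Measure UnitAddCircle).prod μ) :=
    Integrable.of_bound (hf.comp measurable_snd).aestronglyMeasurable C (ae_of_all _ fun q => hC q.2)
  have hEi : Integrable (μ[f | MeasurableSpace.invariants (⇑T)]) μ := integrable_condExp
  have hGi : Integrable (fun q : UnitAddCircle × X => (μ[f | MeasurableSpace.invariants (⇑T)]) q.2)
      ((volume : Measure UnitAddCircle).prod μ) := hEi.comp_snd _
  have key := ae_eq_condExp_of_forall_setIntegral_eq (flowInv_le (sus T)) (μ := (volume : Measure UnitAddCircle).prod μ)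
    (f := fun q : UnitAddCircle × X => f q.2)
    (g := fun q : UnitAddCircle × X => (μ[f | MeasurableSpace.invariants (⇑T)]) q.2) hFi
    (fun s _ _ => hGi.integrableOn) ?_ ?_
  · filter_upwards [key] with p hp
    exact hp.symm
  · intro A hA _
    have hA' : ∀ t : ℝ, MeasurableSet A ∧ sus T t ⁻¹' A = A := by
      have h1 := MeasurableSpace.measurableSet_iInf.1 hA
      intro t
      exact MeasurableSpace.measurableSet_invariants.1 (h1 t)
    have hAm : MeasurableSet A := (hA' 0).1
    have hsec : ∀ s : UnitAddCircle, MeasurableSet[MeasurableSpace.invariants (⇑T)] (Prod.mk s ⁻¹' A) := by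
      intro s
      refine MeasurableSpace.measurableSet_invariants.2 ⟨measurable_prodMk_left hAm, ?_⟩
      ext x
      have h2 := (hA' 1).2
      have h3 : (s, x) ∈ sus T 1 ⁻¹' A ↔ (s, x) ∈ A := by rw [h2]
      have h4 : sus T 1 (s, x) = (s, T x) := by
        have h5 : ⌊rep s + 1⌋ = 1 := by
          rw [Int.floor_eq_iff]
          have := rep_nonneg s
          have := rep_lt s
          push_cast
          constructor <;> linarith
        simp only [sus]
        rw [h5, zpow_one]
        refine Prod.ext ?_ rfl
        simp only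
        have h6 : ((1 : ℝ) : UnitAddCircle) = 0 := AddCircle.coe_period 1
        rw [h6, add_zero]
      rw [Set.mem_preimage, h4] at h3
      exact h3
    have hI : ∀ g : X → ℝ, Integrable g μ → ∫ p in A, g p.2 ∂((volume : Measure UnitAddCircle).prod μ) =
        ∫ s : UnitAddCircle, ∫ x in Prod.mk s ⁻¹' A, g x ∂μ := by
      intro g hg
      rw [← integral_indicator hAm, integral_prod]
      · refine integral_congr_ae (ae_of_all _ fun s => ?_)
        simp only
        rw [← integral_indicator (measurable_prodMk_left hAm)]
        rfl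
      · exact (hg.comp_snd _).indicator hAm
    rw [hI _ hEi, hI _ hfi]
    refine integral_congr_ae (ae_of_all _ fun s => ?_)
    exact setIntegral_condExp (MeasurableSpace.invariants_le _) hfi (hsec s)
  · refine (Measurable.stronglyMeasurable ?_).aestronglyMeasurable
    intro B hB
    rw [flowInv, MeasurableSpace.measurableSet_iInf]
    intro t
    refine MeasurableSpace.measurableSet_invariants.2 ⟨(hEm'.comp measurable_snd) hB, ?_⟩
    ext ⟨s, x⟩
    simp only [Set.mem_preimage, sus]
    rw [invariant_zpow hE]

end Pool.Agent.N201.BT
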